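import Mathlib
import Pool.Agent.K7.H87.BL.Fre

/-!
# Subloops of free Bol loops of exponent two are free

The answer to the question is yes: for every set `X`, every subloop of the free Bol loop `B(X)` of
exponent two is free.

Proof. A Bol loop of exponent two is the same as a set `Ω` with a base point and a sharply transitive
set `T` of permutations (the right multiplications) with `f² = 1` for `f ∈ T` which is closed under
conjugation by its elements. The free one is constructed explicitly (`Ltr`, `Uni`, `Stg`, `Pnt`): the
group generated by `T` is a free product of groups of order two, generated by a set `Z` of letters,
its Schreier graph on `Ω` is a tree together with one core edge from the base point for each letter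
which is not in `X`, and the word of the core edge consists of letters of lower level.

For a subloop `S` let `D` be the chamber (containing `1`) of the reflections in `S` in the Cayley tree
of the letters (`Din`), and `D₁` the set of the `δ ∈ D` such that some point of `S` is mapped by `δ` to
the base point (`D1`). The homomorphisms from `S` to a Bol loop `Q` of exponent two correspond to the
labellings, with values in `Q`, of the edges of `D` and of its walls which satisfy one triangular
equation for each core edge at a point of `D₁` (`LabOK`) and which are trivial on a forest `isB` in `D`
in which each component contains exactly one point of `D₁`. The forest can be chosen such that its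
edges have no equation. So the labels without an equation which are not in the forest (`Free`) are
free parameters, and the corresponding elements of `S` are free generators.
-/

set_option autoImplicit false

namespace Pool.Agent.Results.MP_a1bc66_al.SubloopsAreFree

open Pool.Agent.K7.H87.BL

universe u

/-- For every set `X` there is a free Bol loop of exponent two on `X`, and every subloop `H` of a
free Bol loop `B` of exponent two is free: some subset `Y` of `H` is a set of free generators of
`H`. -/
theorem result :
    (∀ X : Type u, ∃ (B : Type u) (_ : BolLoop B) (ι : X → B), IsFree ι) ∧
    ∀ (X B : Type u) [BolLoop B] (ι : X → B), IsFree ι → ∀ H : Subloop B,
      ∃ Y : Set H.carrier, IsFree (fun y : Y => (y : H.carrier)) := by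
  refine ⟨fun X => ⟨Pt X, inferInstance, gn, pt_free X⟩, ?_⟩
  intro X B _ ι h H
  obtain ⟨I, j, hj⟩ := sub_free h H
  exact ⟨Set.range j, hj.range⟩

end Pool.Agent.Results.MP_a1bc66_al.SubloopsAreFree
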